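import Pool.Agent.Helper23.XT.Basic

/-!
Project XT (MP_c5a4e2_lc), section XT-ACExt: every valuation of an algebraically closed field is
extremal.
-/

namespace Pool.Agent.Helper82.XT

open Pool.Agent.Helper23.XT MvPolynomial

variable {K Γ' : Type*} [Field K] [LinearOrderedCommGroupWithZero Γ']

theorem extremal_of_isAlgClosed [IsAlgClosed K] (w : Valuation K Γ') : Extremal w := by
  intro n f
  by_cases hz : ∃ a : Fin n → K, (∀ i, w (a i) ≤ 1) ∧ eval a f = 0
  · obtain ⟨a, ha, h0⟩ := hz
    refine ⟨a, ha, fun b _ => ?_⟩
    rw [h0, map_zero]
    exact zero_le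
  · push Not at hz
    refine ⟨fun _ => 0, fun i => by rw [map_zero]; exact zero_le, fun b hb => ?_⟩
    -- the polynomial `h(T) = f(T b)`
    let h : Polynomial K := MvPolynomial.eval₂ (Polynomial.C : K →+* Polynomial K)
      (fun i => Polynomial.C (b i) * Polynomial.X) f
    have heval : ∀ t : K, h.eval t = eval (fun i => b i * t) f := by
      intro t
      have h1 := MvPolynomial.eval₂_comp_left (Polynomial.evalRingHom t)
        (Polynomial.C : K →+* Polynomial K) (fun i => Polynomial.C (b i) * Polynomial.X) f
      have h2 : (Polynomial.evalRingHom t).comp (Polynomial.C : K →+* Polynomial K) =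
          RingHom.id K := by
        ext x
        simp
      rw [h2] at h1
      have h3 : (Polynomial.evalRingHom t) ∘ (fun i => Polynomial.C (b i) * Polynomial.X) =
          (fun i => b i * t) := by
        funext i
        simp
      rw [h3] at h1
      exact h1
    have hroots : ∀ τ ∈ h.roots, 1 < w τ := by
      intro τ hτ
      by_contra hc
      rw [not_lt] at hc
      have h1 : h.eval τ = 0 := (Polynomial.mem_roots'.mp hτ).2
      rw [heval] at h1
      refine hz (fun i => b i * τ) (fun i => ?_) h1
      rw [map_mul]
      exact mul_le_one' (hb i) hc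
    have hprod : ∀ t : K, w (h.eval t) =
        w h.leadingCoeff * (h.roots.map (fun τ => w (t - τ))).prod := by
      intro t
      have h1 : h = Polynomial.C h.leadingCoeff *
          (h.roots.map (fun τ => Polynomial.X - Polynomial.C τ)).prod :=
        (IsAlgClosed.splits h).eq_prod_roots
      have h2 : h.eval t = h.leadingCoeff * (h.roots.map (fun τ => t - τ)).prod := by
        conv_lhs => rw [h1]
        rw [Polynomial.eval_mul, Polynomial.eval_C, Polynomial.eval_multiset_prod,
          Multiset.map_map]
        congr 2
        apply Multiset.map_congr rfl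
        intro τ _
        simp
      rw [h2, map_mul, map_multiset_prod, Multiset.map_map]
      rfl
    have h1 : w (h.eval 1) = w (h.eval 0) := by
      rw [hprod, hprod]
      congr 2
      apply Multiset.map_congr rfl
      intro τ hτ
      have h3 := hroots τ hτ
      rw [zero_sub, Valuation.map_neg]
      apply Valuation.map_sub_eq_of_lt_right
      rw [map_one]
      exact h3
    rw [heval, heval] at h1
    simp only [mul_one, mul_zero] at h1
    exact h1.symm.le

end Pool.Agent.Helper82.XT
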